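import Pool.Agent.Helper85.LN.Goals
import Pool.Agent.Helper5.GapBasic
import Pool.Agent.Helper5.ST.Result

/-!
# Packet LN GROM: polynomial growth implies virtual nilpotence
-/

namespace Pool.Agent.Helper59.LN

open Pool.Agent.Helper85.LN Pool.Agent.Helper5.Gap

/-- growth does not decrease under injective homomorphisms -/
theorem growth_le {G H : Type*} [Group G] [Group H] (f : G →* H) (hf : Function.Injective f)
    (X : Set G) (Y : Set H) (hXY : ∀ x ∈ X, f x ∈ Y) (hY : Y.Finite) (n : ℕ) :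
    growth X n ≤ growth Y n := by
  unfold growth
  rw [← Set.ncard_image_of_injective _ hf]
  refine Set.ncard_le_ncard ?_ (ball_finite hY n)
  rintro _ ⟨g, ⟨l, hl, hx, rfl⟩, rfl⟩
  refine ⟨l.map f, by rw [List.length_map]; exact hl, ?_, (map_list_prod f l).symm⟩
  intro y hy
  obtain ⟨x, hxl, rfl⟩ := List.mem_map.1 hy
  rcases hx x hxl with h | h
  · exact Or.inl (hXY x h)
  · right
    rw [← map_inv]
    exact hXY _ h

/-- a polynomial is smaller than `exp (c (log n)^(4/3))` -/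
theorem not_poly (c : ℝ) (hc : 0 < c) (C D : ℕ) : ∃ n : ℕ, 1 ≤ n ∧
    ((C * (n + 1) ^ D : ℕ) : ℝ) < Real.exp (c * Real.log n ^ (4 / 3 : ℝ)) := by
  set K : ℝ := Real.log ((C : ℝ) + 1) + D * Real.log 2 with hK
  have hK0 : 0 ≤ K := by
    have h1 : 0 ≤ Real.log ((C : ℝ) + 1) := Real.log_nonneg (by
      have : (0 : ℝ) ≤ C := Nat.cast_nonneg C
      linarith)
    have h2 : 0 ≤ Real.log 2 := Real.log_nonneg (by norm_num)
    positivity
  set M : ℝ := ((K + D) / c) ^ (3 : ℕ) + 1 with hM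
  have hM1 : 1 ≤ M := by
    have : 0 ≤ ((K + D) / c) ^ (3 : ℕ) := by positivity
    linarith
  obtain ⟨n, hn⟩ := exists_nat_gt (Real.exp M)
  have hn1 : (1 : ℝ) < n := by
    have : (1 : ℝ) < Real.exp M := Real.one_lt_exp_iff.2 (by linarith)
    linarith
  have hn0 : (0 : ℝ) < n := by linarith
  refine ⟨n, by exact_mod_cast hn1.le, ?_⟩
  set L : ℝ := Real.log n with hL
  have hLM : M < L := (Real.lt_log_iff_exp_lt hn0).2 hn
  have hL1 : 1 < L := by linarith
  have hL0 : 0 < L := by linarith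
  have h1 : ((C * (n + 1) ^ D : ℕ) : ℝ) ≤ Real.exp (K + D * L) := by
    have e1 : Real.exp (K + D * L) = ((C : ℝ) + 1) * (2 * n) ^ D := by
      have hC1 : (0 : ℝ) < (C : ℝ) + 1 := by positivity
      rw [hK, Real.exp_add, Real.exp_add, Real.exp_log hC1, mul_assoc, mul_pow]
      congr 1
      rw [mul_comm (D : ℝ) (Real.log 2), mul_comm (D : ℝ) L, Real.exp_mul, Real.exp_mul,
        Real.exp_log (by norm_num), hL, Real.exp_log hn0, Real.rpow_natCast, Real.rpow_natCast]
    rw [e1]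
    push_cast
    have hC0 : (0 : ℝ) ≤ C := Nat.cast_nonneg C
    have h2 : ((n : ℝ) + 1) ^ D ≤ (2 * n) ^ D := pow_le_pow_left₀ (by positivity) (by linarith) D
    have h3 : (0 : ℝ) ≤ (2 * n) ^ D := by positivity
    nlinarith [mul_le_mul_of_nonneg_left h2 hC0]
  refine h1.trans_lt (Real.exp_lt_exp.2 ?_)
  have h4 : K + D * L ≤ (K + D) * L := by nlinarith
  refine h4.trans_lt ?_
  have h5 : (K + D) / c < L ^ (1 / 3 : ℝ) := by
    have h6 : (((K + D) / c) ^ (3 : ℕ)) ^ (1 / 3 : ℝ) = (K + D) / c := by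
      rw [← Real.rpow_natCast, ← Real.rpow_mul (by positivity)]
      norm_num
    rw [← h6]
    exact Real.rpow_lt_rpow (by positivity) (by linarith) (by norm_num)
  have h7 : L ^ (4 / 3 : ℝ) = L ^ (1 / 3 : ℝ) * L := by
    rw [show (4 / 3 : ℝ) = 1 / 3 + 1 by norm_num, Real.rpow_add hL0, Real.rpow_one]
  rw [h7, ← mul_assoc]
  refine mul_lt_mul_of_pos_right ?_ hL0
  rw [div_lt_iff₀ hc] at h5
  linarith

theorem grom : S_GROM := by
  intro m d A hP
  by_contra hV
  obtain ⟨C, D, hCD⟩ := hP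
  obtain ⟨c, hc, hfin⟩ := Pool.Agent.Helper5.ST.finalResult
  classical
  set X : Finset A.G := Finset.univ.image fun q : Fin m =>
    (⟨A.perm q, Subgroup.subset_closure ⟨q, rfl⟩⟩ : A.G) with hX
  have hX1 : (X : Set A.G) = ((↑) : A.G → Equiv.Perm (List (Fin d))) ⁻¹' Set.range A.perm := by
    ext g
    rw [hX, Finset.coe_image, Finset.coe_univ, Set.image_univ, Set.mem_range, Set.mem_preimage,
      Set.mem_range]
    constructor
    · rintro ⟨q, rfl⟩
      exact ⟨q, rfl⟩
    · rintro ⟨q, hq⟩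
      exact ⟨q, Subtype.ext hq⟩
  have hX2 : Subgroup.closure (X : Set A.G) = ⊤ := by
    rw [hX1]
    exact Subgroup.closure_closure_coe_preimage
  obtain ⟨n, hn1, hn⟩ := not_poly c hc C D
  have h1 := hfin A.G X hX2 hV n hn1
  have h2 := growth_le A.G.subtype A.G.subtype_injective (X : Set A.G) (Set.range A.perm)
    (fun x hx => by
      rw [hX1] at hx
      exact hx) (Set.finite_range _) n
  have h3 := h2.trans (hCD n)
  have h4 : ((growth (X : Set A.G) n : ℕ) : ℝ) ≤ ((C * (n + 1) ^ D : ℕ) : ℝ) := by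
    exact_mod_cast h3
  exact absurd (h1.trans h4) (not_le.2 hn)

end Pool.Agent.Helper59.LN
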